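import Mathlib
import Pool.Agent.helper159_ZK.Fib
import Pool.Agent.helper159_ZK.Ana

set_option autoImplicit false

/-! Analytic estimates for record gaps in Bohr sets. -/

namespace Pool.Agent.helper159_BO

open Filter Finset Pool.Agent.helper159_ZK

theorem F_scale (η : ℝ) (hη : 0 < η) : ∃ R : ℝ, ∀ L : ℝ, R ≤ L → ∀ L' : ℝ, η * L ≤ L' → L' ≤ L →
    0 < F L ∧ η / 8 * F L ≤ F L' := by
  have hlog := Real.tendsto_log_atTop
  have hll : Tendsto (fun l : ℝ => Real.log (Real.log l)) atTop atTop := hlog.comp hlog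
  have hlll : Tendsto (fun l : ℝ => Real.log (Real.log (Real.log l))) atTop atTop := hlog.comp hll
  have hev := (((hlog.eventually_ge_atTop (2 * |Real.log η|)).and (hll.eventually_ge_atTop 4)).and
    (hlll.eventually_ge_atTop 2)).and (eventually_ge_atTop (1 : ℝ))
  obtain ⟨R, hR⟩ := eventually_atTop.1 hev
  refine ⟨R, fun L hL L' h1 h2 => ?_⟩
  obtain ⟨⟨⟨a1, a2⟩, a3⟩, a4⟩ := hR L hL
  have hL0 : 0 < L := by linarith
  have hL'0 : 0 < L' := lt_of_lt_of_le (by positivity) h1
  set u := Real.log L with hu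
  set s := Real.log u with hs
  set w := Real.log s with hw
  have hs0 : 0 < s := by linarith
  have hu0 : 0 < u := by
    by_contra hcon
    push Not at hcon
    have h3 : 0 ≤ -u := by linarith
    rcases eq_or_lt_of_le hcon with h4 | h4
    · rw [hs, h4, Real.log_zero] at a2; linarith
    · have h5 : 0 ≤ 2 * |Real.log η| := by positivity
      linarith
  have hw0 : 0 < w := by linarith
  have hl2 : Real.log 2 ≤ 1 := by
    have := Real.log_two_lt_d9
    linarith
  set u' := Real.log L' with hu'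
  have hu'1 : u / 2 ≤ u' := by
    have h3 : Real.log (η * L) ≤ u' := Real.log_le_log (by positivity) h1
    rw [Real.log_mul hη.ne' hL0.ne', ← hu] at h3
    have h4 := neg_abs_le (Real.log η)
    linarith
  have hu'2 : u' ≤ u := Real.log_le_log hL'0 h2
  have hu'0 : 0 < u' := by linarith
  set s' := Real.log u' with hs'
  have hs'1 : s - 1 ≤ s' := by
    have h3 : Real.log (u / 2) ≤ s' := Real.log_le_log (by linarith) hu'1
    rw [Real.log_div hu0.ne' (by norm_num), ← hs] at h3
    linarith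
  have hs'2 : s' ≤ s := Real.log_le_log hu'0 hu'2
  have hs'0 : 0 < s' := by linarith
  set w' := Real.log s' with hw'
  have hw'1 : w / 2 ≤ w' := by
    have h3 : Real.log (s / 2) ≤ w' := Real.log_le_log (by linarith) (by linarith)
    rw [Real.log_div hs0.ne' (by norm_num), ← hw] at h3
    linarith
  have hFL : F L = L * u ^ 2 * w / s ^ 2 := rfl
  have hFL' : F L' = L' * u' ^ 2 * w' / s' ^ 2 := rfl
  rw [hFL, hFL']
  refine ⟨by positivity, ?_⟩
  have h5 : η * L * (u / 2) ^ 2 * (w / 2) ≤ L' * u' ^ 2 * w' := by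
    gcongr
  have h6 : η / 8 * (L * u ^ 2 * w / s ^ 2) = η * L * (u / 2) ^ 2 * (w / 2) / s ^ 2 := by
    ring
  rw [h6]
  calc η * L * (u / 2) ^ 2 * (w / 2) / s ^ 2 ≤ L' * u' ^ 2 * w' / s ^ 2 := by gcongr
    _ ≤ L' * u' ^ 2 * w' / s' ^ 2 := by
        apply div_le_div_of_nonneg_left
        · have : 0 ≤ w' := by linarith
          positivity
        · positivity
        · gcongr

theorem thr_big : ∀ᶠ y : ℝ in atTop,
    32 * Real.log (Real.log y) ≤ Real.exp (Real.log (Real.log y) *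
      Real.log (Real.log (Real.log (Real.log y))) / (20 * Real.log (Real.log (Real.log y)))) := by
  have hlog := Real.tendsto_log_atTop
  have hll : Tendsto (fun l : ℝ => Real.log (Real.log l)) atTop atTop := hlog.comp hlog
  have key : ∀ᶠ s : ℝ in atTop, 32 * s ≤ Real.exp (s * Real.log (Real.log s) / (20 * Real.log s)) := by
    have h1 := (Real.isLittleO_pow_log_id_atTop (n := 2)).def (show (0 : ℝ) < 1 / 40 by norm_num)
    filter_upwards [h1, hlog.eventually_ge_atTop 1, hll.eventually_ge_atTop 1,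
      eventually_ge_atTop (32 : ℝ)] with s a1 a2 a3 a4
    have hls : 0 < Real.log s := by linarith
    have hs0 : 0 < s := by linarith
    rw [Real.norm_eq_abs, abs_of_nonneg (by positivity), id, Real.norm_eq_abs, abs_of_pos hs0] at a1
    have h3 : 2 * Real.log s ≤ s / (20 * Real.log s) := by
      rw [le_div_iff₀ (by positivity)]
      nlinarith
    have h4 : s / (20 * Real.log s) ≤ s * Real.log (Real.log s) / (20 * Real.log s) := by
      apply div_le_div_of_nonneg_right _ (by positivity)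
      nlinarith
    calc 32 * s ≤ s ^ 2 := by nlinarith
      _ = Real.exp (2 * Real.log s) := by
          rw [two_mul, Real.exp_add, Real.exp_log hs0, pow_two]
      _ ≤ _ := Real.exp_le_exp.2 (h3.trans h4)
  exact hll.eventually key

/-- lower bound for `φ(D) / D` -/
theorem tot_lower (D : ℕ) (hD : 1 ≤ D)
    (h : (∑ p ∈ D.primeFactors with (16 : ℝ) < ((p : ℕ) : ℝ), 1 / ((p : ℕ) : ℝ)) ≤ 1 / 2) :
    (1 / 2 : ℝ) ^ 17 * (1 / 2) ≤ (Nat.totient D : ℝ) / D := by
  rw [tot_eq D hD, ← Finset.prod_filter_not_mul_prod_filter _ (fun p : ℕ => (16 : ℝ) < (p : ℝ))]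
  apply mul_le_mul _ _ (by positivity)
  · apply Finset.prod_nonneg
    intro p hp
    rw [mem_filter] at hp
    have h1 : (1 : ℝ) ≤ p := by exact_mod_cast (Nat.prime_of_mem_primeFactors hp.1).one_lt.le
    have h2 : 1 / (p : ℝ) ≤ 1 := by rw [div_le_one (by linarith)]; exact h1
    linarith
  · set S := D.primeFactors.filter (fun p : ℕ => ¬ (16 : ℝ) < (p : ℝ)) with hS
    have hcard : S.card ≤ 17 := by
      have hsub : S ⊆ range 17 := by
        intro p hp
        rw [hS, mem_filter] at hp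
        rw [mem_range]
        have h1 : (p : ℝ) ≤ 16 := not_lt.1 hp.2
        have h2 : p ≤ 16 := by exact_mod_cast h1
        omega
      have := card_le_card hsub
      rwa [card_range] at this
    calc (1 / 2 : ℝ) ^ 17 ≤ (1 / 2 : ℝ) ^ S.card :=
          pow_le_pow_of_le_one (by norm_num) (by norm_num) hcard
      _ = ∏ _p ∈ S, (1 / 2 : ℝ) := by rw [prod_const]
      _ ≤ _ := by
          apply Finset.prod_le_prod
          · intro p _; norm_num
          · intro p hp
            rw [hS, mem_filter] at hp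
            have h1 : (2 : ℝ) ≤ p := by exact_mod_cast (Nat.prime_of_mem_primeFactors hp.1).two_le
            have h2 : 1 / (p : ℝ) ≤ 1 / 2 := one_div_le_one_div_of_le (by norm_num) h1
            linarith
  · have h4 := prod_ge (D.primeFactors.filter (fun p : ℕ => (16 : ℝ) < (p : ℝ)))
      (fun p hp => (Nat.prime_of_mem_primeFactors (mem_filter.1 hp).1).one_lt.le)
    linarith

/-- solving `i a ≡ u (mod q)` with `1 ≤ i ≤ q` -/
theorem inv_lemma (a : ℤ) (q : ℕ) (hq : 1 ≤ q) (hcop : IsCoprime a (q : ℤ)) (u : ℤ) :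
    ∃ i : ℕ, 1 ≤ i ∧ i ≤ q ∧ ∃ h : ℤ, (i : ℤ) * a = u + q * h := by
  obtain ⟨x, y, hxy⟩ := hcop
  have hq0 : (0 : ℤ) < q := by exact_mod_cast hq
  have h1 := Int.emod_nonneg (u * x - 1) hq0.ne'
  have h2 := Int.emod_lt_of_pos (u * x - 1) hq0
  have h3 := Int.emod_add_mul_ediv (u * x - 1) q
  refine ⟨((u * x - 1) % q + 1).toNat, by omega, by omega, -u * y - ((u * x - 1) / q) * a, ?_⟩
  rw [Int.toNat_of_nonneg (by omega)]
  linear_combination (-a) * h3 * (-1) + u * hxy

/-- a starting point -/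
theorem start (α β : ℝ) (a : ℤ) (q : ℕ) (hq : 1 ≤ q) (hcop : IsCoprime a (q : ℤ))
    (hα : |α - a / q| ≤ 1 / (q : ℝ) ^ 2) (M : ℕ) :
    ∃ i : ℕ, 1 ≤ i ∧ i ≤ q ∧ ∃ h : ℤ, |α * ((M + i : ℕ) : ℝ) - β - h| ≤ 2 / q := by
  have hqR : (0 : ℝ) < q := by exact_mod_cast hq
  set v : ℝ := q * (β - α * M) with hv
  obtain ⟨i, hi1, hi2, h, hh⟩ := inv_lemma a q hq hcop (round v)
  refine ⟨i, hi1, hi2, h, ?_⟩
  have hR : (i : ℝ) * a = (round v : ℤ) + q * h := by exact_mod_cast hh
  have hiR : (i : ℝ) ≤ q := by exact_mod_cast hi2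
  have e : α * ((M + i : ℕ) : ℝ) - β - h = ((round v : ℤ) - v) / q + i * (α - a / q) := by
    push_cast
    field_simp
    rw [hv]
    linear_combination hR
  rw [e]
  have h1 : |(((round v : ℤ) : ℝ) - v) / q| ≤ 1 / q := by
    rw [abs_div, abs_of_pos hqR]
    apply div_le_div_of_nonneg_right _ hqR.le
    rw [abs_sub_comm]
    exact (abs_sub_round v).trans (by norm_num)
  have h2 : |(i : ℝ) * (α - a / q)| ≤ 1 / q := by
    rw [abs_mul, Nat.abs_cast]
    calc (i : ℝ) * |α - a / q| ≤ q * (1 / (q : ℝ) ^ 2) :=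
          mul_le_mul hiR hα (abs_nonneg _) hqR.le
      _ = 1 / q := by field_simp
  calc |(((round v : ℤ) : ℝ) - v) / q + i * (α - a / q)| ≤ 1 / q + 1 / q :=
        (abs_add_le _ _).trans (add_le_add h1 h2)
    _ = 2 / q := by ring

/-- a second small denominator prime to `q` -/
theorem second (α : ℝ) (a : ℤ) (q : ℕ) (hq : 1 ≤ q) (hcop : IsCoprime a (q : ℤ))
    (hα : |α - a / q| ≤ 1 / (q : ℝ) ^ 2) :
    ∃ q' : ℕ, 1 ≤ q' ∧ q' ≤ q ∧ Nat.Coprime q q' ∧ ∃ a' : ℤ, |α * q' - a'| ≤ 2 / q := by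
  have hqR : (0 : ℝ) < q := by exact_mod_cast hq
  obtain ⟨i, hi1, hi2, h, hh⟩ := inv_lemma a q hq hcop 1
  have hiR : (i : ℝ) ≤ q := by exact_mod_cast hi2
  refine ⟨i, hi1, hi2, ?_, h, ?_⟩
  · rw [← Nat.isCoprime_iff_coprime]
    exact ⟨-h, a, by linear_combination hh⟩
  · have hR : (i : ℝ) * a = 1 + q * h := by exact_mod_cast hh
    have e : α * i - h = 1 / q + i * (α - a / q) := by
      field_simp
      linear_combination hR
    rw [e]
    have h2 : |(i : ℝ) * (α - a / q)| ≤ 1 / q := by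
      rw [abs_mul, Nat.abs_cast]
      calc (i : ℝ) * |α - a / q| ≤ q * (1 / (q : ℝ) ^ 2) :=
            mul_le_mul hiR hα (abs_nonneg _) hqR.le
        _ = 1 / q := by field_simp
    have h1 : |(1 : ℝ) / q| = 1 / q := abs_of_pos (by positivity)
    calc |1 / (q : ℝ) + i * (α - a / q)| ≤ 1 / q + 1 / q :=
          (abs_add_le _ _).trans (add_le_add h1.le h2)
      _ = 2 / q := by ring

end Pool.Agent.helper159_BO
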