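import Mathlib

set_option autoImplicit false

/-! Small combinations of two coprime integers without many small prime factors. -/

namespace Pool.Agent.helper159_BO

open Finset

/-- a residue class of `s` modulo `p` -/
theorem card_class (p q c T : ℕ) (hp : p.Prime) (hq : ¬ p ∣ q) :
    ((Icc 1 T).filter (fun s => p ∣ s * q + c)).card ≤ T / p + 1 := by
  have hmaps : ∀ s ∈ (Icc 1 T).filter (fun s => p ∣ s * q + c), s / p ∈ range (T / p + 1) := by
    intro s hs
    rw [mem_filter, mem_Icc] at hs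
    rw [mem_range]
    have := Nat.div_le_div_right (c := p) hs.1.2
    omega
  have hinj : Set.InjOn (fun s => s / p) ((Icc 1 T).filter (fun s => p ∣ s * q + c) : Finset ℕ) := by
    intro s hs s' hs' he
    simp only [coe_filter, Set.mem_setOf_eq] at hs hs'
    have h1 : s * q + c ≡ s' * q + c [MOD p] :=
      ((Nat.modEq_zero_iff_dvd.2 hs.2).trans (Nat.modEq_zero_iff_dvd.2 hs'.2).symm)
    have h2 : s * q ≡ s' * q [MOD p] := Nat.ModEq.add_right_cancel' c h1
    have h3 : s ≡ s' [MOD p] :=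
      Nat.ModEq.cancel_right_of_coprime ((Nat.Prime.coprime_iff_not_dvd hp).2 hq) h2
    have h4 := Nat.div_add_mod s p
    have h5 := Nat.div_add_mod s' p
    have h6 : s % p = s' % p := h3
    simp only at he
    rw [← h4, ← h5, he, h6]
  have := Finset.card_le_card_of_injOn _ hmaps hinj
  rwa [card_range] at this

theorem card_pairs (p q q' T : ℕ) (hp : p.Prime) (hcop : Nat.Coprime q q') :
    ((Icc 1 T ×ˢ Icc 1 T).filter (fun z => p ∣ z.1 * q + z.2 * q')).card ≤ T * (T / p + 1) := by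
  classical
  by_cases hq : p ∣ q
  · have hq' : ¬ p ∣ q' := fun h => hp.one_lt.ne' (Nat.dvd_one.1 (hcop ▸ Nat.dvd_gcd hq h))
    have h1 : (Icc 1 T ×ˢ Icc 1 T).filter (fun z => p ∣ z.1 * q + z.2 * q') =
        (Icc 1 T).biUnion (fun s => ((Icc 1 T).filter (fun t => p ∣ t * q' + s * q)).image
          (fun t => (s, t))) := by
      ext z
      simp only [mem_filter, mem_product, mem_biUnion, mem_image]
      constructor
      · rintro ⟨⟨h1, h2⟩, h3⟩
        exact ⟨z.1, h1, z.2, ⟨h2, by rwa [add_comm]⟩, rfl⟩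
      · rintro ⟨s, h1, t, ⟨h2, h3⟩, rfl⟩
        exact ⟨⟨h1, h2⟩, by rwa [add_comm]⟩
    rw [h1]
    refine (card_biUnion_le_card_mul _ _ (T / p + 1) ?_).trans ?_
    · intro s _
      exact card_image_le.trans (card_class p q' (s * q) T hp hq')
    · rw [Nat.card_Icc]; simp
  · have h1 : (Icc 1 T ×ˢ Icc 1 T).filter (fun z => p ∣ z.1 * q + z.2 * q') =
        (Icc 1 T).biUnion (fun t => ((Icc 1 T).filter (fun s => p ∣ s * q + t * q')).image
          (fun s => (s, t))) := by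
      ext z
      simp only [mem_filter, mem_product, mem_biUnion, mem_image]
      constructor
      · rintro ⟨⟨h1, h2⟩, h3⟩
        exact ⟨z.2, h2, z.1, ⟨h1, h3⟩, rfl⟩
      · rintro ⟨t, h1, s, ⟨h2, h3⟩, rfl⟩
        exact ⟨⟨h2, h1⟩, h3⟩
    rw [h1]
    refine (card_biUnion_le_card_mul _ _ (T / p + 1) ?_).trans ?_
    · intro t _
      exact card_image_le.trans (card_class p q (t * q') T hp hq)
    · rw [Nat.card_Icc]; simp

theorem avg (T q q' : ℕ) (hT : 1 ≤ T) (hcop : Nat.Coprime q q') (w : ℕ → ℝ) (hw : ∀ p, 0 ≤ w p) :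
    ∃ s ∈ Icc 1 T, ∃ t ∈ Icc 1 T,
      ∑ p ∈ ((Icc 1 T).filter Nat.Prime).filter (fun p => p ∣ s * q + t * q'), w p ≤
        ∑ p ∈ (Icc 1 T).filter Nat.Prime, w p * (2 / p) := by
  classical
  set S := Icc 1 T ×ˢ Icc 1 T with hS
  set PP := (Icc 1 T).filter Nat.Prime with hPP
  have hcardS : (S.card : ℝ) = T * T := by
    rw [hS, card_product, Nat.card_Icc]; simp
  have hSne : S.Nonempty := ⟨(1, 1), by rw [hS, mem_product, mem_Icc]; exact ⟨⟨le_rfl, hT⟩, ⟨le_rfl, hT⟩⟩⟩
  have hTR : (0 : ℝ) < T := by exact_mod_cast hT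
  have key : ∑ z ∈ S, ∑ p ∈ PP.filter (fun p => p ∣ z.1 * q + z.2 * q'), w p ≤
      ∑ _z ∈ S, ∑ p ∈ PP, w p * (2 / p) := by
    have h1 : ∑ z ∈ S, ∑ p ∈ PP.filter (fun p => p ∣ z.1 * q + z.2 * q'), w p =
        ∑ p ∈ PP, ∑ z ∈ S, if p ∣ z.1 * q + z.2 * q' then w p else 0 := by
      rw [Finset.sum_comm]
      apply Finset.sum_congr rfl
      intro z _
      rw [Finset.sum_filter]
    rw [h1, sum_const, nsmul_eq_mul, hcardS, Finset.mul_sum]
    apply Finset.sum_le_sum
    intro p hp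
    rw [hPP, mem_filter, mem_Icc] at hp
    obtain ⟨⟨hp1, hpT⟩, hpp⟩ := hp
    have hpR : (0 : ℝ) < p := by exact_mod_cast hp1
    have hpTR : (p : ℝ) ≤ T := by exact_mod_cast hpT
    rw [← Finset.sum_filter, sum_const, nsmul_eq_mul]
    have h2 : (((S.filter (fun z => p ∣ z.1 * q + z.2 * q')).card : ℕ) : ℝ) ≤ T * T * (2 / p) := by
      have h3 : ((S.filter (fun z => p ∣ z.1 * q + z.2 * q')).card : ℕ) ≤ T * (T / p + 1) :=
        card_pairs p q q' T hpp hcop
      have h4 : (((S.filter (fun z => p ∣ z.1 * q + z.2 * q')).card : ℕ) : ℝ) ≤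
          T * (((T / p : ℕ) : ℝ) + 1) := by exact_mod_cast h3
      have h5 : ((T / p : ℕ) : ℝ) ≤ T / p := Nat.cast_div_le
      have h6 : (1 : ℝ) ≤ T / p := by rw [le_div_iff₀ hpR]; linarith
      calc _ ≤ _ := h4
        _ ≤ (T : ℝ) * (T / p + T / p) := by
            apply mul_le_mul_of_nonneg_left _ hTR.le
            linarith
        _ = T * T * (2 / p) := by ring
    calc (((S.filter (fun z => p ∣ z.1 * q + z.2 * q')).card : ℕ) : ℝ) * w p
        ≤ T * T * (2 / p) * w p := mul_le_mul_of_nonneg_right h2 (hw p)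
      _ = T * T * (w p * (2 / p)) := by ring
  obtain ⟨z, hz, hle⟩ := Finset.exists_le_of_sum_le hSne key
  rw [hS, mem_product] at hz
  exact ⟨z.1, hz.1, z.2, hz.2, hle⟩

theorem sum_sq (N T : ℕ) (hN : 1 ≤ N) :
    ∑ p ∈ ((Icc 1 T).filter Nat.Prime).filter (fun p => N < p), 1 / (p : ℝ) * (2 / p) ≤ 2 / N := by
  have h1 : ∑ p ∈ ((Icc 1 T).filter Nat.Prime).filter (fun p => N < p), 1 / (p : ℝ) * (2 / p) ≤
      ∑ p ∈ Ioc N (max N T), 2 * ((p : ℝ) ^ 2)⁻¹ := by
    have h2 : ∀ p : ℕ, 1 / (p : ℝ) * (2 / p) = 2 * ((p : ℝ) ^ 2)⁻¹ := by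
      intro p
      rw [one_div, div_eq_mul_inv, pow_two, mul_inv]; ring
    simp only [h2]
    apply Finset.sum_le_sum_of_subset_of_nonneg
    · intro p hp
      rw [mem_filter, mem_filter, mem_Icc] at hp
      rw [mem_Ioc]
      exact ⟨hp.2, hp.1.1.2.trans (le_max_right _ _)⟩
    · intro p _ _
      positivity
  refine h1.trans ?_
  rw [← Finset.mul_sum]
  have h3 := sum_Ioc_inv_sq_le_sub (α := ℝ) (k := N) (n := max N T) (by omega) (le_max_left _ _)
  have h4 : (0 : ℝ) ≤ ((max N T : ℕ) : ℝ)⁻¹ := by positivity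
  have h5 : (2 : ℝ) / N = 2 * (N : ℝ)⁻¹ := by rw [div_eq_mul_inv]
  rw [h5]
  linarith

theorem omega_le (d : ℕ) (hd : 1 ≤ d) : (d.primeFactors.card : ℝ) ≤ 2 * Real.log d := by
  have h1 : 2 ^ d.primeFactors.card ≤ d := by
    calc 2 ^ d.primeFactors.card = ∏ _p ∈ d.primeFactors, 2 := by rw [prod_const]
      _ ≤ ∏ p ∈ d.primeFactors, p :=
        Finset.prod_le_prod' (fun p hp => (Nat.prime_of_mem_primeFactors hp).two_le)
      _ ≤ d := Nat.le_of_dvd hd (Nat.prod_primeFactors_dvd _)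
  have h2 : Real.log ((2 : ℝ) ^ d.primeFactors.card) ≤ Real.log d := by
    apply Real.log_le_log (by positivity)
    exact_mod_cast h1
  rw [Real.log_pow] at h2
  have h3 := Real.log_two_gt_d9
  have h4 : (0 : ℝ) ≤ d.primeFactors.card := Nat.cast_nonneg _
  nlinarith

/-- splitting the prime factors at `T` -/
theorem split (D T : ℕ) (hD : 1 ≤ D) (hT : 1 ≤ T) (y : ℝ) :
    ∑ p ∈ D.primeFactors with y < ((p : ℕ) : ℝ), 1 / ((p : ℕ) : ℝ) ≤
      ∑ p ∈ ((Icc 1 T).filter Nat.Prime).filter (fun p => p ∣ D), (if y < ((p : ℕ) : ℝ) then 1 / (p : ℝ) else 0)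
        + 2 * Real.log D / T := by
  classical
  have hTR : (0 : ℝ) < T := by exact_mod_cast hT
  rw [← Finset.sum_filter_add_sum_filter_not (D.primeFactors.filter (fun p : ℕ => y < (p : ℝ)))
    (fun p => p ≤ T)]
  apply add_le_add
  · rw [← Finset.sum_filter]
    apply Finset.sum_le_sum_of_subset_of_nonneg
    · intro p hp
      simp only [mem_filter, Nat.mem_primeFactors, mem_Icc] at hp ⊢
      exact ⟨⟨⟨⟨hp.1.1.1.one_lt.le, hp.2⟩, hp.1.1.1⟩, hp.1.1.2.1⟩, hp.1.2⟩
    · intro p _ _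
      positivity
  · calc ∑ p ∈ (D.primeFactors.filter (fun p : ℕ => y < (p : ℝ))).filter (fun p => ¬ p ≤ T), 1 / (p : ℝ)
        ≤ ∑ p ∈ (D.primeFactors.filter (fun p : ℕ => y < (p : ℝ))).filter (fun p => ¬ p ≤ T), 1 / (T : ℝ) := by
          apply Finset.sum_le_sum
          intro p hp
          rw [mem_filter] at hp
          apply one_div_le_one_div_of_le hTR
          have : T ≤ p := by omega
          exact_mod_cast this
      _ = ((D.primeFactors.filter (fun p : ℕ => y < (p : ℝ))).filter (fun p => ¬ p ≤ T)).card * (1 / (T : ℝ)) := by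
          rw [sum_const, nsmul_eq_mul]
      _ ≤ D.primeFactors.card * (1 / (T : ℝ)) := by
          apply mul_le_mul_of_nonneg_right _ (by positivity)
          exact_mod_cast card_le_card ((filter_subset _ _).trans (filter_subset _ _))
      _ ≤ 2 * Real.log D * (1 / (T : ℝ)) := by
          apply mul_le_mul_of_nonneg_right (omega_le D hD) (by positivity)
      _ = _ := by ring

/-- a combination of `q` and `q'` with few prime factors -/
theorem choose (T q q' : ℕ) (U θ : ℝ) (hT : 1 ≤ T) (hq : 1 ≤ q) (hq' : 1 ≤ q') (hqq : q' ≤ q)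
    (hcop : Nat.Coprime q q') (hU : 1 ≤ U) (hθ : 32 * U ≤ θ)
    (hlog : 8 * U * Real.log (2 * T * q) ≤ T) :
    ∃ s t : ℕ, 1 ≤ s ∧ s ≤ T ∧ 1 ≤ t ∧ t ≤ T ∧
      (∑ p ∈ (s * q + t * q').primeFactors with (16 : ℝ) < ((p : ℕ) : ℝ), 1 / ((p : ℕ) : ℝ)) ≤ 1 / 2 ∧
      (∑ p ∈ (s * q + t * q').primeFactors with θ < ((p : ℕ) : ℝ), 1 / ((p : ℕ) : ℝ)) ≤ 1 / U := by
  classical
  have hTR : (0 : ℝ) < T := by exact_mod_cast hT
  have hU0 : 0 < U := by linarith
  have hθ0 : 0 < θ := by linarith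
  obtain ⟨s, hs, t, ht, h⟩ := avg T q q' hT hcop
    (fun p => (if (16 : ℝ) < (p : ℝ) then 1 / (p : ℝ) else 0) + U * (if θ < (p : ℝ) then 1 / (p : ℝ) else 0))
    (by
      intro p
      have h1 : (0 : ℝ) ≤ 1 / (p : ℝ) := by positivity
      split_ifs <;> nlinarith)
  rw [mem_Icc] at hs ht
  set D := s * q + t * q' with hD
  have hD1 : 1 ≤ D := by
    have : 1 ≤ s * q := Nat.mul_pos hs.1 hq
    omega
  have hDle : D ≤ 2 * T * q := by
    have h1 : s * q ≤ T * q := Nat.mul_le_mul_right _ hs.2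
    have h2 : t * q' ≤ T * q := Nat.mul_le_mul ht.2 hqq
    have h3 : 2 * T * q = T * q + T * q := by ring
    omega
  have hlD : Real.log D ≤ Real.log (2 * T * q) := by
    apply Real.log_le_log (by exact_mod_cast hD1)
    exact_mod_cast hDle
  -- the right hand side
  have hR : ∑ p ∈ (Icc 1 T).filter Nat.Prime,
      ((if (16 : ℝ) < (p : ℝ) then 1 / (p : ℝ) else 0) + U * (if θ < (p : ℝ) then 1 / (p : ℝ) else 0)) *
        (2 / p) ≤ 1 / 4 := by
    have e : ∀ p : ℕ, ((if (16 : ℝ) < (p : ℝ) then 1 / (p : ℝ) else 0) +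
        U * (if θ < (p : ℝ) then 1 / (p : ℝ) else 0)) * (2 / p) =
        (if (16 : ℝ) < (p : ℝ) then 1 / (p : ℝ) * (2 / p) else 0) +
        U * (if θ < (p : ℝ) then 1 / (p : ℝ) * (2 / p) else 0) := by
      intro p
      split_ifs <;> ring
    simp only [e]
    rw [Finset.sum_add_distrib, ← Finset.mul_sum, ← Finset.sum_filter, ← Finset.sum_filter]
    have h1 : ∑ p ∈ ((Icc 1 T).filter Nat.Prime).filter (fun p : ℕ => (16 : ℝ) < (p : ℝ)),
        1 / (p : ℝ) * (2 / p) ≤ 2 / 16 := by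
      have h2 := sum_sq 16 T (by norm_num)
      have h3 : ((Icc 1 T).filter Nat.Prime).filter (fun p : ℕ => (16 : ℝ) < (p : ℝ)) =
          ((Icc 1 T).filter Nat.Prime).filter (fun p => 16 < p) := by
        apply Finset.filter_congr
        intro p _
        exact_mod_cast Iff.rfl
      rw [h3]
      exact_mod_cast h2
    have hfl : θ / 2 ≤ (⌊θ⌋₊ : ℝ) := by
      have := Nat.lt_floor_add_one θ
      linarith
    have hfl1 : 1 ≤ ⌊θ⌋₊ := by
      apply Nat.le_floor
      push_cast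
      linarith
    have h4 : ∑ p ∈ ((Icc 1 T).filter Nat.Prime).filter (fun p : ℕ => θ < (p : ℝ)),
        1 / (p : ℝ) * (2 / p) ≤ 2 / (⌊θ⌋₊ : ℝ) := by
      refine le_trans ?_ (sum_sq ⌊θ⌋₊ T hfl1)
      apply Finset.sum_le_sum_of_subset_of_nonneg
      · intro p hp
        rw [mem_filter] at hp ⊢
        refine ⟨hp.1, ?_⟩
        exact (Nat.floor_lt hθ0.le).2 hp.2
      · intro p _ _
        positivity
    have h5 : 2 / (⌊θ⌋₊ : ℝ) ≤ 2 / (θ / 2) := by
      apply div_le_div_of_nonneg_left (by norm_num) (by positivity) hfl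
    have h6 : U * (2 / (θ / 2)) ≤ 1 / 8 := by
      have : U * (2 / (θ / 2)) = 4 * U / θ := by field_simp; ring
      rw [this, div_le_div_iff₀ hθ0 (by norm_num)]
      linarith
    have h7 := mul_le_mul_of_nonneg_left (h4.trans h5) hU0.le
    linarith
  have hmain := h.trans hR
  rw [Finset.sum_add_distrib, ← Finset.mul_sum] at hmain
  have hnn : ∀ y : ℝ, 0 ≤ ∑ p ∈ ((Icc 1 T).filter Nat.Prime).filter (fun p => p ∣ D),
      (if y < ((p : ℕ) : ℝ) then 1 / (p : ℝ) else 0) := by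
    intro y
    apply Finset.sum_nonneg
    intro p _
    split_ifs
    · positivity
    · exact le_rfl
  have hn1 := hnn 16
  have hn2 := mul_nonneg hU0.le (hnn θ)
  have hs1 := split D T hD1 hT 16
  have hs2 := split D T hD1 hT θ
  have hlD0 : 0 ≤ Real.log D := Real.log_natCast_nonneg D
  have hrem : U * (2 * Real.log D / T) ≤ 1 / 4 := by
    have h1 : U * (2 * Real.log D / T) = (8 * U * Real.log D) / (4 * T) := by field_simp; ring
    rw [h1, div_le_div_iff₀ (by positivity) (by norm_num)]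
    have h2 : 8 * U * Real.log D ≤ 8 * U * Real.log (2 * T * q) :=
      mul_le_mul_of_nonneg_left hlD (by positivity)
    linarith
  have hrem1 : 2 * Real.log D / T ≤ 1 / 4 := by
    have h1 : 0 ≤ 2 * Real.log D / T := by positivity
    nlinarith
  refine ⟨s, t, hs.1, hs.2, ht.1, ht.2, by linarith, ?_⟩
  rw [le_div_iff₀ hU0]
  have h1 := mul_le_mul_of_nonneg_left hs2 hU0.le
  rw [mul_add] at h1
  rw [mul_comm]
  linarith

end Pool.Agent.helper159_BO
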