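import Mathlib
import Pool.Agent.helper159_ZK.Main
import Pool.Agent.helper159_BO.Avg
import Pool.Agent.helper159_BO.Ana

set_option autoImplicit false

/-! Record gaps in Bohr sets. -/

namespace Pool.Agent.helper159_BO

open Filter Finset Pool.Agent.helper159_ZK

/-- the conditions on `x` -/
theorem conds (ε R Y₀ : ℝ) (hε : 0 < ε) : ∀ᶠ x : ℝ in atTop,
    1 ≤ x ∧ 8 ≤ x ^ (ε / 8) ∧ R ≤ Real.log x ∧ Y₀ ≤ x ^ ε ∧ 1 ≤ Real.log x ∧
    48 * Real.log x ^ 2 ≤ x ^ (ε / 8) ∧ 2 * |Real.log ε| + 1 ≤ Real.log (Real.log x) := by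
  have hlog := Real.tendsto_log_atTop
  have h1 : Tendsto (fun x : ℝ => x ^ (ε / 8)) atTop atTop := tendsto_rpow_atTop (by positivity)
  have h2 : Tendsto (fun x : ℝ => x ^ ε) atTop atTop := tendsto_rpow_atTop hε
  have h3 := (isLittleO_log_rpow_rpow_atTop (2 : ℝ) (show 0 < ε / 8 by positivity)).def
    (show (0 : ℝ) < 1 / 48 by norm_num)
  filter_upwards [eventually_ge_atTop 1, h1.eventually_ge_atTop 8, hlog.eventually_ge_atTop R,
    h2.eventually_ge_atTop Y₀, hlog.eventually_ge_atTop 1, h3,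
    (hlog.comp hlog).eventually_ge_atTop (2 * |Real.log ε| + 1)] with x a1 a2 a3 a4 a5 a6 a7
  refine ⟨a1, a2, a3, a4, a5, ?_, a7⟩
  rw [Real.norm_eq_abs, Real.norm_eq_abs, abs_of_nonneg (by positivity), abs_of_nonneg (by positivity)] at a6
  have e : Real.log x ^ (2 : ℝ) = Real.log x ^ 2 := by
    rw [show (2 : ℝ) = ((2 : ℕ) : ℝ) by norm_num, Real.rpow_natCast]
  rw [e] at a6
  linarith

/-- a representative of a residue class -/
theorem repr (m b M : ℕ) (hm : 1 ≤ m) : ∃ b₁ : ℕ, M < b₁ ∧ b₁ ≤ M + m ∧ b₁ ≡ b [MOD m] := by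
  refine ⟨M + 1 + ((b + (m - 1) * (M + 1)) % m), by omega, ?_, ?_⟩
  · have := Nat.mod_lt (b + (m - 1) * (M + 1)) (show 0 < m by omega)
    omega
  · have h1 : M + 1 + ((b + (m - 1) * (M + 1)) % m) ≡ M + 1 + (b + (m - 1) * (M + 1)) [MOD m] :=
      Nat.ModEq.add_left _ (Nat.mod_modEq _ _)
    refine h1.trans ?_
    have h2 : M + 1 + (b + (m - 1) * (M + 1)) = b + m * (M + 1) := by
      obtain ⟨e, rfl⟩ := Nat.exists_eq_add_of_le hm
      rw [Nat.add_sub_cancel_left]; ring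
    rw [h2]
    unfold Nat.ModEq
    rw [Nat.add_mul_mod_self_left]

theorem sum_mul_le (m D : ℕ) (hm : m ≠ 0) (hD : D ≠ 0) (θ : ℝ) :
    (∑ p ∈ (m * D).primeFactors with θ < ((p : ℕ) : ℝ), 1 / ((p : ℕ) : ℝ)) ≤
      (∑ p ∈ m.primeFactors with θ < ((p : ℕ) : ℝ), 1 / ((p : ℕ) : ℝ)) +
      (∑ p ∈ D.primeFactors with θ < ((p : ℕ) : ℝ), 1 / ((p : ℕ) : ℝ)) := by
  classical
  rw [Nat.primeFactors_mul hm hD, Finset.filter_union, ← Finset.sum_union_inter]
  have : (0 : ℝ) ≤ ∑ p ∈ (m.primeFactors.filter (fun p : ℕ => θ < (p : ℝ))) ∩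
      (D.primeFactors.filter (fun p : ℕ => θ < (p : ℝ))), 1 / (p : ℝ) :=
    Finset.sum_nonneg (fun p _ => by positivity)
  linarith

theorem sum_mono (m : ℕ) (θ θ' : ℝ) (h : θ ≤ θ') :
    (∑ p ∈ m.primeFactors with θ' < ((p : ℕ) : ℝ), 1 / ((p : ℕ) : ℝ)) ≤
      (∑ p ∈ m.primeFactors with θ < ((p : ℕ) : ℝ), 1 / ((p : ℕ) : ℝ)) := by
  apply Finset.sum_le_sum_of_subset_of_nonneg
  · intro p hp
    rw [mem_filter] at hp ⊢
    exact ⟨hp.1, lt_of_le_of_lt h hp.2⟩
  · intro p _ _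
    positivity

theorem tot_mul (m D : ℕ) (hm : 1 ≤ m) (hD : 1 ≤ D) :
    (Nat.totient m : ℝ) / m * ((Nat.totient D : ℝ) / D) ≤
      (Nat.totient (m * D) : ℝ) / ((m * D : ℕ) : ℝ) := by
  have hmR : (0 : ℝ) < m := by exact_mod_cast hm
  have hDR : (0 : ℝ) < D := by exact_mod_cast hD
  rw [div_mul_div_comm]
  push_cast
  apply div_le_div_of_nonneg_right _ (by positivity)
  exact_mod_cast Nat.totient_super_multiplicative m D

/-- the Bohr condition -/
theorem bohr_bound (α β E : ℝ) (q q' m b₁ i k s t : ℕ) (a a' h₀ : ℤ) (hqR : (0 : ℝ) < q) (hE : 8 ≤ E)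
    (hs : (s : ℝ) ≤ E) (ht : (t : ℝ) ≤ E) (hα : |α * m - a / q| ≤ 1 / (q : ℝ) ^ 2)
    (ha' : |α * m * q' - a'| ≤ 2 / q)
    (hh₀ : |α * m * ((0 + i : ℕ) : ℝ) - (β - α * b₁) - h₀| ≤ 2 / q) (hk : (k : ℝ) ≤ E ^ 4) :
    |α * ((b₁ : ℝ) + m * i + m * (((s * q + t * q' : ℕ) : ℝ)) * k) - β -
      ((h₀ + k * (s * a + t * a') : ℤ) : ℝ)| ≤ E ^ 8 / q := by
  have hE0 : 0 < E := by linarith
  have hA' : |α * m * q - a| ≤ 1 / q := by
    have h1 : α * m * q - a = q * (α * m - a / q) := by field_simp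
    rw [h1, abs_mul, abs_of_pos hqR]
    calc (q : ℝ) * |α * m - a / q| ≤ q * (1 / (q : ℝ) ^ 2) := mul_le_mul_of_nonneg_left hα hqR.le
      _ = 1 / q := by field_simp
  have hAD : |s * (α * m * q - a) + t * (α * m * q' - a')| ≤ 3 * E / q := by
    have h2 : |(s : ℝ) * (α * m * q - a)| ≤ E * (1 / q) := by
      rw [abs_mul, Nat.abs_cast]
      exact mul_le_mul hs hA' (abs_nonneg _) hE0.le
    have h3 : |(t : ℝ) * (α * m * q' - a')| ≤ E * (2 / q) := by
      rw [abs_mul, Nat.abs_cast]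
      exact mul_le_mul ht ha' (abs_nonneg _) hE0.le
    calc |(s : ℝ) * (α * m * q - a) + t * (α * m * q' - a')| ≤ E * (1 / q) + E * (2 / q) :=
          (abs_add_le _ _).trans (add_le_add h2 h3)
      _ = 3 * E / q := by ring
  have e : α * ((b₁ : ℝ) + m * i + m * (((s * q + t * q' : ℕ) : ℝ)) * k) - β -
      ((h₀ + k * (s * a + t * a') : ℤ) : ℝ) =
      (α * m * ((0 + i : ℕ) : ℝ) - (β - α * b₁) - h₀) +
        k * (s * (α * m * q - a) + t * (α * m * q' - a')) := by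
    push_cast; ring
  rw [e]
  have h4 : |(k : ℝ) * (s * (α * m * q - a) + t * (α * m * q' - a'))| ≤ E ^ 4 * (3 * E / q) := by
    rw [abs_mul, Nat.abs_cast]
    exact mul_le_mul hk hAD (abs_nonneg _) (by positivity)
  refine ((abs_add_le _ _).trans (add_le_add hh₀ h4)).trans ?_
  have h5 : (8 : ℝ) ^ 3 ≤ E ^ 3 := pow_le_pow_left₀ (by norm_num) hE 3
  have h6 : (1 : ℝ) ≤ E ^ 5 := one_le_pow₀ (by linarith)
  have h7 : E ^ 8 = E ^ 5 * E ^ 3 := by ring
  have h8 : 2 + 3 * E ^ 5 ≤ E ^ 8 := by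
    rw [h7]
    nlinarith
  have h9 : 2 / (q : ℝ) + E ^ 4 * (3 * E / q) = (2 + 3 * E ^ 5) / q := by ring
  rw [h9]
  exact div_le_div_of_nonneg_right h8 hqR.le

theorem size_bound {x y Q E ε d : ℝ} (hy0 : 0 < y) (hyx : y ≤ x) (hε : 0 < ε)
    (hE : 8 ≤ E) (hQ : 0 < Q) (e4 : x ^ (ε / 4) = E ^ 2) (hy : y = Q * E ^ 4) (hd : d ≤ 2 * E * Q) :
    d ≤ y ^ (1 - ε / 4) := by
  have hE0 : 0 < E := by linarith
  have h1 : y ^ (1 - ε / 4) * y ^ (ε / 4) = y := by
    rw [← Real.rpow_add hy0]; simp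
  have h2 : y ^ (ε / 4) ≤ x ^ (ε / 4) := Real.rpow_le_rpow hy0.le hyx (by positivity)
  have h3 : 0 < y ^ (1 - ε / 4) := by positivity
  have h4 : y ≤ y ^ (1 - ε / 4) * E ^ 2 := by
    calc y = y ^ (1 - ε / 4) * y ^ (ε / 4) := h1.symm
      _ ≤ y ^ (1 - ε / 4) * x ^ (ε / 4) := mul_le_mul_of_nonneg_left h2 h3.le
      _ = y ^ (1 - ε / 4) * E ^ 2 := by rw [e4]
  have h5 : (2 * E * Q) * E ^ 2 ≤ y := by
    have h6 : (2 * E * Q) * E ^ 2 = (Q * E ^ 3) * 2 := by ring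
    have h7 : Q * E ^ 4 = (Q * E ^ 3) * E := by ring
    rw [h6, hy, h7]
    exact mul_le_mul_of_nonneg_left (by linarith) (by positivity)
  have h8 : 0 < E ^ 2 := by positivity
  exact hd.trans (le_of_mul_le_mul_right (h5.trans h4) h8)

theorem log_bound {x U T q E : ℝ} (c1 : 1 ≤ x) (hlx : 0 < Real.log x) (hU1 : 1 ≤ U)
    (hUle : U ≤ Real.log x) (hT1 : 1 ≤ T) (hTx : T ≤ x) (hq1 : 1 ≤ q) (hq2 : 2 * q ≤ x)
    (c6 : 48 * Real.log x ^ 2 ≤ E) (hET : E / 2 ≤ T) : 8 * U * Real.log (2 * T * q) ≤ T := by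
  have hx0 : 0 < x := by linarith
  have h2 : 2 * T * q ≤ x ^ 3 := by
    have h5 : (2 * q) * T ≤ x * x := mul_le_mul hq2 hTx (by positivity) hx0.le
    have h6 : x * x ≤ x ^ 3 := by
      have : x ^ 3 = x * x * x := by ring
      rw [this]
      exact le_mul_of_one_le_right (by positivity) c1
    linarith
  have h1 : Real.log (2 * T * q) ≤ 3 * Real.log x := by
    have h6 := Real.log_le_log (by positivity) h2
    rw [Real.log_pow] at h6
    push_cast at h6
    exact h6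
  have hTq : 1 * 1 ≤ T * q := mul_le_mul hT1 hq1 (by norm_num) (by positivity)
  have h0 : 0 ≤ Real.log (2 * T * q) := Real.log_nonneg (by linarith)
  have h7 : 8 * U * Real.log (2 * T * q) ≤ 8 * Real.log x * (3 * Real.log x) := by
    apply mul_le_mul _ h1 h0 (by positivity)
    linarith
  have h8 : 8 * Real.log x * (3 * Real.log x) = 24 * Real.log x ^ 2 := by ring
  linarith

theorem final_bound {c η tm TT K F1 F2 : ℝ} (hc : 0 ≤ c) (htm : 0 ≤ tm) (hK : 0 ≤ K)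
    (h1 : tm * K ≤ TT) (h2 : η * F1 ≤ F2) (h3 : 0 ≤ η * F1) :
    c * K * η * tm * F1 ≤ c * (TT * F2) := by
  have h0 : 0 ≤ tm * K := mul_nonneg htm hK
  calc c * K * η * tm * F1 = c * ((tm * K) * (η * F1)) := by ring
    _ ≤ c * (TT * F2) := by
        apply mul_le_mul_of_nonneg_left _ hc
        exact mul_le_mul h1 h2 h3 (h0.trans h1)

theorem core (hbase : Base) (ε A : ℝ) (hε : 0 < ε) (hε2 : ε ≤ 1 / 2) (hA : 0 ≤ A) :
    ∃ κ : ℝ, 0 < κ ∧ ∃ x₀ : ℝ, 1 ≤ x₀ ∧ ∀ x : ℝ, x₀ ≤ x → ∀ m : ℕ, 1 ≤ m →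
      (∑ p ∈ m.primeFactors with Real.log (Real.log x) < ((p : ℕ) : ℝ), 1 / ((p : ℕ) : ℝ)) ≤
        A / Real.log (Real.log x) → ∀ (α β : ℝ) (a : ℤ) (q b M : ℕ), 1 ≤ q →
      IsCoprime a (q : ℤ) → (q : ℝ) * m ≤ x ^ (1 - ε) → |α * m - a / q| ≤ 1 / (q : ℝ) ^ 2 →
      ∃ n : ℕ, n ≡ b [MOD m] ∧ M < n ∧ (n : ℝ) ≤ M + x ∧ (∃ h : ℤ, |α * n - β - h| ≤ x ^ ε / q) ∧
        ∀ p : ℕ, p.Prime → κ * ((Nat.totient m : ℝ) / m) * F (Real.log x) < |(p : ℝ) - n| := by
  obtain ⟨c, hc, x₀b, hbb⟩ := hbase (ε / 4) (A + 1) (by positivity) (by linarith) (by linarith)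
  obtain ⟨R, hR⟩ := F_scale ε hε
  have hll : Tendsto (fun l : ℝ => Real.log (Real.log l)) atTop atTop :=
    Real.tendsto_log_atTop.comp Real.tendsto_log_atTop
  obtain ⟨Y₀, hY₀⟩ := eventually_atTop.1 (((eventually_ge_atTop x₀b).and
    (hll.eventually_ge_atTop 1)).and (thr_big.and (eventually_ge_atTop 1)))
  obtain ⟨x₀, hx₀⟩ := eventually_atTop.1 (conds ε R Y₀ hε)
  refine ⟨c * ((1 / 2 : ℝ) ^ 17 * (1 / 2)) * (ε / 8), by positivity, max x₀ 1, le_max_right _ _,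
    fun x hx m hm hmp α β a q b M hq hcop hqx hα => ?_⟩
  obtain ⟨c1, c2, c3, c4, c5, c6, c7⟩ := hx₀ x ((le_max_left _ _).trans hx)
  have hx0 : 0 < x := by linarith
  have hlx : 0 < Real.log x := by linarith
  have habs : 0 ≤ |Real.log ε| := abs_nonneg _
  have hllx : 0 < Real.log (Real.log x) := by linarith
  have hqR : (0 : ℝ) < q := by exact_mod_cast hq
  have hq1 : (1 : ℝ) ≤ q := by exact_mod_cast hq
  have hmR : (0 : ℝ) < m := by exact_mod_cast hm
  have hm1 : (1 : ℝ) ≤ m := by exact_mod_cast hm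
  obtain ⟨Q, hQ⟩ : ∃ Q : ℝ, Q = q * m := ⟨_, rfl⟩
  rw [← hQ] at hqx
  have hQR : (0 : ℝ) < Q := by rw [hQ]; positivity
  have hqQ : (q : ℝ) ≤ Q := by rw [hQ]; exact le_mul_of_one_le_right hqR.le hm1
  have hmQ : (m : ℝ) ≤ Q := by rw [hQ]; exact le_mul_of_one_le_left hmR.le hq1
  have htm0 : 0 ≤ (Nat.totient m : ℝ) / m := by positivity
  -- powers of `x`
  obtain ⟨e8, he8⟩ : ∃ e8 : ℝ, e8 = x ^ (ε / 8) := ⟨_, rfl⟩
  rw [← he8] at c2 c6
  have e2 : x ^ (ε / 2) = e8 ^ 4 := by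
    rw [he8, ← Real.rpow_natCast, ← Real.rpow_mul hx0.le]; congr 1; push_cast; ring
  have e4 : x ^ (ε / 4) = e8 ^ 2 := by
    rw [he8, ← Real.rpow_natCast, ← Real.rpow_mul hx0.le]; congr 1; push_cast; ring
  have e1 : x ^ ε = e8 ^ 8 := by
    rw [he8, ← Real.rpow_natCast, ← Real.rpow_mul hx0.le]; congr 1; push_cast; ring
  have he8x : e8 ≤ x := by
    rw [he8]
    calc x ^ (ε / 8) ≤ x ^ (1 : ℝ) := Real.rpow_le_rpow_of_exponent_le c1 (by linarith)
      _ = x := Real.rpow_one x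
  have hxε : 1 ≤ x ^ ε := Real.one_le_rpow c1 hε.le
  have hmul : x ^ (1 - ε) * x ^ ε = x := by
    rw [← Real.rpow_add hx0]; simp
  obtain ⟨hF0, -⟩ := hR (Real.log x) c3 (Real.log x)
    (by
      have : ε * Real.log x ≤ 1 * Real.log x := mul_le_mul_of_nonneg_right (by linarith) hlx.le
      linarith) le_rfl
  rcases lt_or_ge (q : ℝ) (x ^ ε) with hqs | hqs
  · -- small `q`: no condition on `α n`
    have hxx : x ^ ε ≤ x := by
      calc x ^ ε ≤ x ^ (1 : ℝ) := Real.rpow_le_rpow_of_exponent_le c1 (by linarith)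
        _ = x := Real.rpow_one x
    obtain ⟨⟨b1, b2⟩, b3, b4⟩ := hY₀ x (c4.trans hxx)
    have hmx : (m : ℝ) ≤ x ^ (1 - ε / 4) :=
      (hmQ.trans hqx).trans (Real.rpow_le_rpow_of_exponent_le c1 (by linarith))
    have hsum := (sum_mono m _ _ (show Real.log (Real.log x) ≤ _ by
      refine le_trans ?_ b3
      linarith)).trans (hmp.trans (div_le_div_of_nonneg_right (show A ≤ A + 1 by linarith) hllx.le))
    obtain ⟨n, hn1, hn2, hn3, hn4⟩ := hbb x b1 m hm hmx hsum b M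
    refine ⟨n, hn1, hn2, hn3, ⟨round (α * n - β), ?_⟩, fun p hp => ?_⟩
    · refine (abs_sub_round _).trans ?_
      rw [div_le_div_iff₀ (by norm_num) hqR]
      linarith
    · refine lt_of_le_of_lt ?_ (hn4 p hp)
      have hFx : Real.log x * Real.log (Real.log x) ^ 2 *
          Real.log (Real.log (Real.log (Real.log x))) /
            Real.log (Real.log (Real.log x)) ^ 2 = F (Real.log x) := rfl
      rw [hFx]
      apply final_bound hc.le htm0 (by positivity) _ _ (by positivity)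
      · exact mul_le_of_le_one_right htm0 (by norm_num)
      · have : ε / 8 * F (Real.log x) ≤ 1 * F (Real.log x) :=
          mul_le_mul_of_nonneg_right (by linarith) hF0.le
        linarith
  · -- the main case
    obtain ⟨b₁, hb1, hb2, hb3⟩ := repr m b M hm
    obtain ⟨i, hi1, hi2, h₀, hh₀⟩ := start (α * m) (β - α * b₁) a q hq hcop hα 0
    obtain ⟨q', hq'1, hq'2, hqq', a', ha'⟩ := second (α * m) a q hq hcop hα
    obtain ⟨T, hT⟩ : ∃ T : ℕ, T = ⌊e8⌋₊ := ⟨_, rfl⟩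
    have hT1 : (T : ℝ) ≤ e8 := by rw [hT]; exact Nat.floor_le (by linarith)
    have hT2 : e8 < T + 1 := by rw [hT]; exact Nat.lt_floor_add_one _
    have hT7 : (1 : ℝ) ≤ T := by linarith
    have hT0 : 1 ≤ T := by exact_mod_cast hT7
    obtain ⟨y, hy⟩ : ∃ y : ℝ, y = Q * e8 ^ 4 := ⟨_, rfl⟩
    have hyx : y * x ^ (ε / 2) ≤ x := by
      have h1 : y * x ^ (ε / 2) = Q * x ^ ε := by
        rw [hy, e2, e1]; ring
      rw [h1]
      calc Q * x ^ ε ≤ x ^ (1 - ε) * x ^ ε := mul_le_mul_of_nonneg_right hqx (by linarith)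
        _ = x := hmul
    have he84 : 2 ≤ e8 ^ 4 := by
      calc (2 : ℝ) ≤ 8 ^ 4 := by norm_num
        _ ≤ e8 ^ 4 := pow_le_pow_left₀ (by norm_num) c2 4
    have hy0 : 0 < y := by rw [hy]; positivity
    have hy2 : 2 * y ≤ x := by
      have : y * 2 ≤ y * x ^ (ε / 2) := mul_le_mul_of_nonneg_left (by rw [e2]; exact he84) hy0.le
      linarith
    have hyx' : y ≤ x := by linarith
    have hQy : 2 * Q ≤ y := by
      have : Q * 2 ≤ y := by rw [hy]; exact mul_le_mul_of_nonneg_left he84 hQR.le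
      linarith
    have hq2 : 2 * (q : ℝ) ≤ x := by linarith
    have hyε : x ^ ε ≤ y := by linarith
    obtain ⟨⟨b1, b2⟩, b3, b4⟩ := hY₀ y (c4.trans hyε)
    have hly : Real.log y ≤ Real.log x := Real.log_le_log hy0 hyx'
    have hly1 : ε * Real.log x ≤ Real.log y := by
      rw [← Real.log_rpow hx0]; exact Real.log_le_log (by positivity) hyε
    have hly0 : 0 < Real.log y := lt_of_lt_of_le (by positivity) hly1
    have hUx : Real.log (Real.log y) ≤ Real.log (Real.log x) := Real.log_le_log hly0 hly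
    have hxU : Real.log (Real.log x) ≤ 2 * Real.log (Real.log y) := by
      have h1 := Real.log_le_log (by positivity) hly1
      rw [Real.log_mul hε.ne' hlx.ne'] at h1
      have h2 := neg_abs_le (Real.log ε)
      linarith
    have hUle : Real.log (Real.log y) ≤ Real.log x := by
      have h1 := Real.log_le_sub_one_of_pos hly0
      linarith
    have hlog := log_bound c1 hlx b2 hUle hT7 (hT1.trans he8x) hq1 hq2 c6
      (show e8 / 2 ≤ (T : ℝ) by linarith)
    obtain ⟨s, t, hs1, hs2, ht1, ht2, hD16, hDθ⟩ :=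
      choose T q q' _ _ hT0 hq hq'1 hq'2 hqq' b2 b3 hlog
    obtain ⟨D, hD⟩ : ∃ D : ℕ, D = s * q + t * q' := ⟨_, rfl⟩
    rw [← hD] at hD16 hDθ
    have hsT : (s : ℝ) ≤ e8 := (by exact_mod_cast hs2 : (s : ℝ) ≤ T).trans hT1
    have htT : (t : ℝ) ≤ e8 := (by exact_mod_cast ht2 : (t : ℝ) ≤ T).trans hT1
    have hqD' : q ≤ D := by
      have : 1 * q ≤ s * q := Nat.mul_le_mul_right _ hs1
      omega
    have hqD : (q : ℝ) ≤ D := by exact_mod_cast hqD'
    have hD1 : 1 ≤ D := hq.trans hqD'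
    have hDle : (D : ℝ) ≤ 2 * e8 * q := by
      have h1 : (q' : ℝ) ≤ q := by exact_mod_cast hq'2
      have h2 : (s : ℝ) * q ≤ e8 * q := mul_le_mul_of_nonneg_right hsT hqR.le
      have h3 : (t : ℝ) * q' ≤ e8 * q := mul_le_mul htT h1 (by positivity) (by linarith)
      rw [hD]
      push_cast
      linarith
    have hmD1 : 1 ≤ m * D := Nat.mul_pos hm hD1
    have hmDle : ((m * D : ℕ) : ℝ) ≤ 2 * e8 * Q := by
      push_cast
      calc (m : ℝ) * D ≤ m * (2 * e8 * q) := mul_le_mul_of_nonneg_left hDle hmR.le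
        _ = 2 * e8 * Q := by rw [hQ]; ring
    have hDy : ((m * D : ℕ) : ℝ) ≤ y ^ (1 - ε / 4) :=
      size_bound hy0 hyx' hε c2 hQR e4 hy hmDle
    have hsum : (∑ p ∈ (m * D).primeFactors with
        Real.exp (Real.log (Real.log y) * Real.log (Real.log (Real.log (Real.log y))) /
          (20 * Real.log (Real.log (Real.log y)))) < ((p : ℕ) : ℝ), 1 / ((p : ℕ) : ℝ)) ≤
        (A + 1) / Real.log (Real.log y) := by
      have hU0 : 0 < Real.log (Real.log y) := by linarith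
      have h1 := sum_mul_le m D (by omega) (by omega)
        (Real.exp (Real.log (Real.log y) * Real.log (Real.log (Real.log (Real.log y))) /
          (20 * Real.log (Real.log (Real.log y)))))
      have h2 := (sum_mono m (Real.log (Real.log x))
        (Real.exp (Real.log (Real.log y) * Real.log (Real.log (Real.log (Real.log y))) /
          (20 * Real.log (Real.log (Real.log y))))) (by linarith)).trans hmp
      have h3 : A / Real.log (Real.log x) ≤ A / Real.log (Real.log y) :=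
        div_le_div_of_nonneg_left hA hU0 hUx
      rw [add_div]
      linarith
    obtain ⟨n, hn1, hn2, hn3, hn4⟩ := hbb y b1 (m * D) hmD1 hDy hsum (b₁ + m * i) (b₁ + m * i)
    obtain ⟨k, hk⟩ := (Nat.modEq_iff_dvd' hn2.le).1 hn1.symm
    have hnk : n = b₁ + m * i + m * D * k := by omega
    have hnR : (n : ℝ) = b₁ + m * i + m * D * k := by rw [hnk]; push_cast; ring
    have hn3' : (n : ℝ) ≤ b₁ + m * i + y := by
      have := hn3
      push_cast at this
      exact this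
    have hkq : (k : ℝ) ≤ e8 ^ 4 := by
      have h2 : Q * k ≤ Q * e8 ^ 4 := by
        calc Q * k = (q * (m * k) : ℝ) := by rw [hQ]; ring
          _ ≤ D * (m * k) := mul_le_mul_of_nonneg_right hqD (by positivity)
          _ = m * D * k := by ring
          _ ≤ y := by linarith
          _ = Q * e8 ^ 4 := hy
      exact le_of_mul_le_mul_left h2 hQR
    refine ⟨n, ?_, by omega, ?_, ⟨h₀ + k * (s * a + t * a'), ?_⟩, fun p hp => ?_⟩
    · rw [hnk]
      have h1 : b₁ + m * i + m * D * k = b₁ + m * (i + D * k) := by ring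
      rw [h1]
      refine Nat.ModEq.trans ?_ hb3
      unfold Nat.ModEq
      rw [Nat.add_mul_mod_self_left]
    · have h1 : (b₁ : ℝ) ≤ M + m := by exact_mod_cast hb2
      have h2 : (m : ℝ) * i ≤ Q := by
        rw [hQ, mul_comm (q : ℝ)]
        exact mul_le_mul_of_nonneg_left (by exact_mod_cast hi2) hmR.le
      linarith
    · rw [hnR, hD, e1]
      exact bohr_bound α β e8 q q' m b₁ i k s t a a' h₀ hqR c2 hsT htT hα ha' hh₀ hkq
    · refine lt_of_le_of_lt ?_ (hn4 p hp)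
      obtain ⟨-, hF1⟩ := hR (Real.log x) c3 (Real.log y) hly1 hly
      have hFx : Real.log y * Real.log (Real.log y) ^ 2 *
          Real.log (Real.log (Real.log (Real.log y))) /
            Real.log (Real.log (Real.log y)) ^ 2 = F (Real.log y) := rfl
      rw [hFx]
      exact final_bound hc.le htm0 (by positivity)
        ((mul_le_mul_of_nonneg_left (tot_lower D hD1 hD16) htm0).trans (tot_mul m D hm hD1)) hF1
        (by positivity)

end Pool.Agent.helper159_BO
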