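import Mathlib
import Pool.Agent.helper159_BO.Main

set_option autoImplicit false

/-! Record gaps in Bohr sets and residue classes: the final statements. -/

namespace Pool.Agent.helper159_BO

open Filter Finset Pool.Agent.helper159_ZK

theorem general (hbase : Base) (ε A : ℝ) (hε : 0 < ε) (hA : 0 ≤ A) :
    ∃ κ : ℝ, 0 < κ ∧ ∃ x₀ : ℝ, 1 ≤ x₀ ∧ ∀ x : ℝ, x₀ ≤ x → ∀ m : ℕ, 1 ≤ m →
      (∑ p ∈ m.primeFactors with Real.log (Real.log x) < ((p : ℕ) : ℝ), 1 / ((p : ℕ) : ℝ)) ≤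
        A / Real.log (Real.log x) → ∀ (α β : ℝ) (a : ℤ) (q b M : ℕ), 1 ≤ q →
      IsCoprime a (q : ℤ) → (q : ℝ) * m ≤ x ^ (1 - ε) → |α * m - a / q| ≤ 1 / (q : ℝ) ^ 2 →
      ∃ n : ℕ, n ≡ b [MOD m] ∧ M < n ∧ (n : ℝ) ≤ M + x ∧ (∃ h : ℤ, |α * n - β - h| ≤ x ^ ε / q) ∧
        ∀ p : ℕ, p.Prime → κ * ((Nat.totient m : ℝ) / m) * F (Real.log x) < |(p : ℝ) - n| := by
  rcases le_or_gt ε (1 / 2) with h | h
  · exact core hbase ε A hε h hA
  · obtain ⟨κ, hκ, x₀, hx₀, H⟩ := core hbase (1 / 2) A (by norm_num) le_rfl hA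
    refine ⟨κ, hκ, x₀, hx₀, fun x hx m hm hmp α β a q b M hq hcop hqx hα => ?_⟩
    have hx1 : 1 ≤ x := hx₀.trans hx
    obtain ⟨n, h1, h2, h3, ⟨w, h4⟩, h5⟩ := H x hx m hm hmp α β a q b M hq hcop
      (hqx.trans (Real.rpow_le_rpow_of_exponent_le hx1 (by linarith))) hα
    refine ⟨n, h1, h2, h3, ⟨w, h4.trans ?_⟩, h5⟩
    apply div_le_div_of_nonneg_right _ (Nat.cast_nonneg q)
    exact Real.rpow_le_rpow_of_exponent_le hx1 (by linarith)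

theorem badly (hbase : Base) (c₀ ε A : ℝ) (hc₀ : 0 < c₀) (hε : 0 < ε) (hA : 0 ≤ A) :
    ∃ κ : ℝ, 0 < κ ∧ ∃ x₀ : ℝ, 1 ≤ x₀ ∧ ∀ x : ℝ, x₀ ≤ x → ∀ m : ℕ, 1 ≤ m →
      (∑ p ∈ m.primeFactors with Real.log (Real.log x) < ((p : ℕ) : ℝ), 1 / ((p : ℕ) : ℝ)) ≤
        A / Real.log (Real.log x) → (m : ℝ) ≤ x ^ (1 - ε) → ∀ (α β : ℝ) (b M : ℕ),
      (∀ h : ℕ, 1 ≤ h → (h : ℝ) ≤ x → ∀ a : ℤ, c₀ / h ≤ |h * α - a|) →
      ∃ n : ℕ, n ≡ b [MOD m] ∧ M < n ∧ (n : ℝ) ≤ M + x ∧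
        (∃ h : ℤ, |α * n - β - h| ≤ (m : ℝ) ^ 2 * x ^ (-1 + ε)) ∧
        ∀ p : ℕ, p.Prime → κ * ((Nat.totient m : ℝ) / m) * F (Real.log x) < |(p : ℝ) - n| := by
  obtain ⟨κ, hκ, x₁, hx₁, H⟩ := general hbase (ε / 4) A (by positivity) hA
  have ht : Tendsto (fun x : ℝ => x ^ (ε / 2)) atTop atTop := tendsto_rpow_atTop (by positivity)
  obtain ⟨x₂, hx₂⟩ := eventually_atTop.1 (ht.eventually_ge_atTop (1 / c₀))
  refine ⟨κ, hκ, max x₁ x₂, hx₁.trans (le_max_left _ _), fun x hx m hm hmp hmx α β b M hα => ?_⟩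
  have hxx₁ : x₁ ≤ x := (le_max_left _ _).trans hx
  have hc1 := hx₂ x ((le_max_right _ _).trans hx)
  have hx1 : 1 ≤ x := hx₁.trans hxx₁
  have hx0 : 0 < x := by linarith
  have hmR : (0 : ℝ) < m := by exact_mod_cast hm
  set X : ℝ := x ^ (1 - ε / 4) with hX
  have hX0 : 0 < X := by positivity
  have hXx : X ≤ x := by
    calc X ≤ x ^ (1 : ℝ) := Real.rpow_le_rpow_of_exponent_le hx1 (by linarith)
      _ = x := Real.rpow_one x
  have hmX : (m : ℝ) ≤ X := hmx.trans (Real.rpow_le_rpow_of_exponent_le hx1 (by linarith))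
  set N : ℕ := ⌊X / m⌋₊ with hN
  have hN1 : (N : ℝ) ≤ X / m := Nat.floor_le (by positivity)
  have hN2 : X / m < N + 1 := Nat.lt_floor_add_one _
  have hN0 : 0 < N := by
    apply Nat.floor_pos.2
    rw [le_div_iff₀ hmR]; linarith
  obtain ⟨r, hr1, hr2⟩ := Real.exists_rat_abs_sub_le_and_den_le (α * m) hN0
  have hq1 : 1 ≤ r.den := r.den_pos
  have hqR : (0 : ℝ) < r.den := by exact_mod_cast hq1
  have hqN : (r.den : ℝ) ≤ N := by exact_mod_cast hr2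
  have hNR : (0 : ℝ) < (N : ℝ) + 1 := by positivity
  have hrR : ((r : ℚ) : ℝ) = (r.num : ℝ) / (r.den : ℝ) := Rat.cast_def r
  rw [hrR] at hr1
  have hα1 : |α * m - (r.num : ℝ) / (r.den : ℝ)| ≤ 1 / (r.den : ℝ) ^ 2 := by
    refine hr1.trans ?_
    apply one_div_le_one_div_of_le (by positivity)
    rw [pow_two]
    exact mul_le_mul_of_nonneg_right (by linarith) hqR.le
  have hcop : IsCoprime r.num (r.den : ℤ) := by
    rw [Int.isCoprime_iff_gcd_eq_one]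
    exact r.reduced
  have hqm : (r.den : ℝ) * m ≤ X := by
    calc (r.den : ℝ) * m ≤ X / m * m := mul_le_mul_of_nonneg_right (hqN.trans hN1) hmR.le
      _ = X := div_mul_cancel₀ _ hmR.ne'
  -- lower bound for the denominator
  have hlow : c₀ * X ≤ r.den * (m : ℝ) ^ 2 := by
    have h1 := hα (r.den * m) (Nat.mul_pos hq1 hm) (by push_cast; linarith) r.num
    push_cast at h1
    have h2 : |(r.den : ℝ) * m * α - r.num| ≤ 1 / ((N : ℝ) + 1) := by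
      have e : (r.den : ℝ) * m * α - r.num = r.den * (α * m - (r.num : ℝ) / (r.den : ℝ)) := by
        field_simp
      rw [e, abs_mul, abs_of_pos hqR]
      calc (r.den : ℝ) * |α * m - (r.num : ℝ) / (r.den : ℝ)| ≤ r.den * (1 / (((N : ℝ) + 1) * r.den)) :=
            mul_le_mul_of_nonneg_left hr1 hqR.le
        _ = 1 / ((N : ℝ) + 1) := by field_simp
    have h3 := h1.trans h2
    rw [div_le_div_iff₀ (by positivity) hNR] at h3
    have h4 : c₀ * (X / m) ≤ r.den * m := by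
      calc c₀ * (X / m) ≤ c₀ * ((N : ℝ) + 1) := mul_le_mul_of_nonneg_left hN2.le hc₀.le
        _ ≤ r.den * m := by linarith
    calc c₀ * X = c₀ * (X / m) * m := by field_simp
      _ ≤ r.den * m * m := mul_le_mul_of_nonneg_right h4 hmR.le
      _ = r.den * (m : ℝ) ^ 2 := by ring
  obtain ⟨n, h1, h2, h3, ⟨w, h4⟩, h5⟩ := H x hxx₁ m hm hmp α β r.num r.den b M hq1 hcop hqm hα1
  refine ⟨n, h1, h2, h3, ⟨w, h4.trans ?_⟩, h5⟩
  rw [div_le_iff₀ hqR]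
  -- `x ^ (ε / 4) ≤ m ^ 2 x ^ (-1 + ε) q`
  have e1 : x ^ (-1 + ε) * X = x ^ (ε / 4) * x ^ (ε / 2) := by
    rw [hX, ← Real.rpow_add hx0, ← Real.rpow_add hx0]; congr 1; ring
  have h6 : 1 ≤ c₀ * x ^ (ε / 2) := by
    rw [div_le_iff₀ hc₀] at hc1
    linarith
  have h7 : 0 < x ^ (ε / 4) := by positivity
  have h8 : 0 ≤ x ^ (-1 + ε) := by positivity
  calc x ^ (ε / 4) ≤ x ^ (ε / 4) * (c₀ * x ^ (ε / 2)) := le_mul_of_one_le_right h7.le h6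
    _ = c₀ * (x ^ (-1 + ε) * X) := by rw [e1]; ring
    _ = x ^ (-1 + ε) * (c₀ * X) := by ring
    _ ≤ x ^ (-1 + ε) * (r.den * (m : ℝ) ^ 2) := mul_le_mul_of_nonneg_left hlow h8
    _ = (m : ℝ) ^ 2 * x ^ (-1 + ε) * r.den := by ring

end Pool.Agent.helper159_BO
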